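import Pool.Agent.Helper28.LV.StN

/-! # Project LV, module CA1: the functions EE and FF -/

set_option autoImplicit false

namespace Pool.Agent.Helper60.LV

open Pool.Agent.Helper28.WK Pool.Agent.Helper28.LV Pool.Agent.Helper14.WK

private noncomputable def GG (c : ℕ → ℂ) (j : ℕ) (z : ℂ) : ℂ :=
  ∑' M : ℕ, c M * (2 * Real.pi * Complex.I * M) ^ j * Complex.exp (2 * Real.pi * Complex.I * M * z)

private lemma ne_exp (m : ℕ) (w : ℂ) : ‖Complex.exp (2 * Real.pi * Complex.I * m * w)‖ =
    Real.exp (-(2 * Real.pi * m * w.im)) := by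
  rw [Complex.norm_exp]
  congr 1
  simp [Complex.mul_re, Complex.mul_im]

private lemma norm_den (m : ℕ) : ‖2 * (Real.pi : ℂ) * Complex.I * (m : ℂ)‖ = 2 * Real.pi * m := by
  rw [norm_mul, norm_mul, norm_mul, Complex.norm_real, Real.norm_of_nonneg Real.pi_pos.le,
    Complex.norm_I, mul_one, Complex.norm_natCast]
  simp

private lemma expb (x t : ℝ) (hx : 0 ≤ x) (ht : 0 < t) (j : ℕ) :
    x ^ j * Real.exp (-(x * t)) ≤ (j.factorial : ℝ) / t ^ j := by
  have h := Real.pow_div_factorial_le_exp (x * t) (by positivity) j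
  have hj : (0 : ℝ) < j.factorial := by exact_mod_cast Nat.factorial_pos j
  rw [div_le_iff₀ hj] at h
  rw [le_div_iff₀ (by positivity), Real.exp_neg]
  have he : 0 < Real.exp (x * t) := Real.exp_pos _
  calc x ^ j * (Real.exp (x * t))⁻¹ * t ^ j = (x * t) ^ j * (Real.exp (x * t))⁻¹ := by
        rw [mul_pow]; ring
    _ ≤ (Real.exp (x * t) * j.factorial) * (Real.exp (x * t))⁻¹ :=
        mul_le_mul_of_nonneg_right h (by positivity)
    _ = j.factorial := by field_simp

private lemma term_le (c : ℕ → ℂ) (j M : ℕ) {t : ℝ} (ht : 0 < t) {w : ℂ} (hw : t ≤ w.im) :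
    ‖c M * (2 * Real.pi * Complex.I * M) ^ j * Complex.exp (2 * Real.pi * Complex.I * M * w)‖ ≤
      ‖c M‖ * ((j.factorial : ℝ) / t ^ j) := by
  rw [norm_mul, norm_mul, norm_pow, norm_den, ne_exp, mul_assoc]
  refine mul_le_mul_of_nonneg_left ?_ (norm_nonneg _)
  have h := expb (2 * Real.pi * M) t (by positivity) ht j
  refine le_trans (mul_le_mul_of_nonneg_left ?_ (by positivity)) h
  apply Real.exp_le_exp.mpr
  have : 2 * Real.pi * (M : ℝ) * t ≤ 2 * Real.pi * M * w.im :=
    mul_le_mul_of_nonneg_left hw (by positivity)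
  linarith

private lemma sumG {c : ℕ → ℂ} (hc : Summable fun M => ‖c M‖) (j : ℕ) {z : ℂ} (hz : 0 < z.im) :
    Summable fun M : ℕ => c M * (2 * Real.pi * Complex.I * M) ^ j *
      Complex.exp (2 * Real.pi * Complex.I * M * z) :=
  Summable.of_norm_bounded (hc.mul_right _) fun M => term_le c j M hz le_rfl

private lemma derG {c : ℕ → ℂ} (hc : Summable fun M => ‖c M‖) (j : ℕ) {z : ℂ} (hz : 0 < z.im) :
    HasDerivAt (GG c j) (GG c (j + 1) z) z := by
  set t : ℝ := z.im / 2 with ht
  have ht0 : 0 < t := by positivity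
  have hzt : t < z.im := by
    rw [ht]
    linarith
  have hopen : IsOpen {w : ℂ | t < w.im} := isOpen_lt continuous_const Complex.continuous_im
  have hpre : IsPreconnected {w : ℂ | t < w.im} := (convex_halfSpace_im_gt t).isPreconnected
  exact hasDerivAt_tsum_of_isPreconnected
    (g := fun (m : ℕ) (w : ℂ) => c m * (2 * Real.pi * Complex.I * m) ^ j *
      Complex.exp (2 * Real.pi * Complex.I * m * w))
    (g' := fun (m : ℕ) (w : ℂ) => c m * (2 * Real.pi * Complex.I * m) ^ (j + 1) *
      Complex.exp (2 * Real.pi * Complex.I * m * w))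
    (t := {w : ℂ | t < w.im}) (y₀ := z) (y := z) (hc.mul_right (((j + 1).factorial : ℝ) / t ^ (j + 1)))
    hopen hpre (fun m w _ => by
      have d1 : HasDerivAt (fun w : ℂ => 2 * Real.pi * Complex.I * m * w)
          (2 * Real.pi * Complex.I * m) w := by
        simpa using (hasDerivAt_id w).const_mul (2 * Real.pi * Complex.I * (m : ℂ))
      have d2 := (d1.cexp).const_mul (c m * (2 * Real.pi * Complex.I * m) ^ j)
      refine d2.congr_deriv ?_
      rw [pow_succ]
      ring) (fun m w hw => term_le c (j + 1) m ht0 (le_of_lt hw)) hzt (sumG hc j hz) hzt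

private lemma iterG {c : ℕ → ℂ} (hc : Summable fun M => ‖c M‖) (j : ℕ) :
    ∀ z : ℂ, 0 < z.im → iteratedDeriv j (GG c 0) z = GG c j z := by
  induction j with
  | zero => intro z _; rw [iteratedDeriv_zero]
  | succ j ih =>
    intro z hz
    rw [iteratedDeriv_succ]
    have hev : iteratedDeriv j (GG c 0) =ᶠ[nhds z] GG c j := by
      have hopen : IsOpen {w : ℂ | 0 < w.im} := isOpen_lt continuous_const Complex.continuous_im
      filter_upwards [hopen.mem_nhds hz] with w hw using ih w hw
    rw [hev.deriv_eq]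
    exact (derG hc j hz).deriv

theorem hCA1 : StCA1 := by
  intro n b hb0 hs
  set c : ℕ → ℂ := fun M => b M / (2 * Real.pi * Complex.I * M) ^ (n + 1) with hcdef
  have hcn : ∀ M, ‖c M‖ ≤ ‖b M‖ / (M : ℝ) ^ (n + 1) := by
    intro M
    rcases Nat.eq_zero_or_pos M with rfl | hM
    · simp [hcdef, hb0]
    · have hM' : (0 : ℝ) < M := by exact_mod_cast hM
      simp only [hcdef]
      rw [norm_div, norm_pow, norm_den]
      refine div_le_div_of_nonneg_left (norm_nonneg _) (by positivity) ?_
      refine pow_le_pow_left₀ hM'.le ?_ _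
      nlinarith [Real.pi_gt_three]
  have hc : Summable fun M => ‖c M‖ :=
    Summable.of_nonneg_of_le (fun _ => norm_nonneg _) hcn hs
  have hEE : EE n b = GG c 0 := by
    funext z
    unfold EE GG
    exact tsum_congr fun M => by rw [pow_zero, mul_one]
  have hFF : ∀ z, GG c (n + 1) z = FF b z := by
    intro z
    unfold FF GG
    refine tsum_congr fun M => ?_
    rcases Nat.eq_zero_or_pos M with rfl | hM
    · simp [hcdef, hb0]
    · have hM0 : (2 * (Real.pi : ℂ) * Complex.I * (M : ℂ)) ≠ 0 := by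
        rw [← norm_pos_iff, norm_den]
        have hM' : (0 : ℝ) < M := by exact_mod_cast hM
        positivity
      simp only [hcdef]
      rw [div_mul_cancel₀ _ (pow_ne_zero _ hM0)]
  have hbd : ∀ (M : ℕ) (z : ℂ), z ∈ {z : ℂ | 0 ≤ z.im} →
      ‖c M * Complex.exp (2 * Real.pi * Complex.I * M * z)‖ ≤ ‖c M‖ := by
    intro M z hz
    rw [norm_mul, ne_exp]
    refine mul_le_of_le_one_right (norm_nonneg _) ?_
    rw [Real.exp_le_one_iff]
    have hz' : 0 ≤ z.im := hz
    have : 0 ≤ 2 * Real.pi * (M : ℝ) * z.im := by positivity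
    linarith
  refine ⟨?_, ?_, ⟨∑' M, ‖c M‖, ?_⟩, ?_⟩
  · unfold EE
    exact continuousOn_tsum (fun M => by fun_prop) hc hbd
  · intro z hz
    rw [hEE]
    exact (derG hc 0 hz).differentiableAt.differentiableWithinAt
  · intro z hz
    unfold EE
    exact tsum_of_norm_bounded hc.hasSum (fun M => hbd M z hz)
  · intro z hz
    rw [hEE, iterG hc (n + 1) z hz, hFF]

end Pool.Agent.Helper60.LV
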